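import Mathlib
import Pool.Agent.H.MP_f651fd_an.A

namespace Pool.Agent.Results.MP_fdf6c3_an.EssOne

open Filter Topology Pool.Agent.H.MP_f651fd_an
open scoped BoundedContinuousFunction ComplexOrder InnerProductSpace

/-- essential spectrum: `z - A` is not invertible modulo compact operators -/
def essSpec {H : Type*} [NormedAddCommGroup H] [InnerProductSpace ℂ H] (A : H →L[ℂ] H) : Set ℂ :=
  {z | ¬ ∃ B : H →L[ℂ] H, IsCompactOperator (B * (z • 1 - A) - 1 : H →L[ℂ] H) ∧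
    IsCompactOperator ((z • 1 - A) * B - 1 : H →L[ℂ] H)}

variable {H : Type*} [NormedAddCommGroup H] [InnerProductSpace ℂ H] [CompleteSpace H]

lemma cpt {A : H →L[ℂ] H} (hA : IsSelfAdjoint A) {t : ℝ} (h : ∀ x : ℝ, x ≠ t →
    ∃ B : H →L[ℂ] H, IsCompactOperator (B * ((x : ℂ) • 1 - A) - 1 : H →L[ℂ] H)) :
    IsCompactOperator (A - (t : ℂ) • 1 : H →L[ℂ] H) := by
  let φ := cfcHom (R := ℝ) hA
  let g : ℝ → C(spectrum ℝ A, ℝ) := fun x =>
    algebraMap ℝ _ x - (ContinuousMap.id ℝ).restrict (spectrum ℝ A)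
  have hg (x : ℝ) : φ (g x) = (x : ℂ) • 1 - A := by
    rw [map_sub, AlgHomClass.commutes, cfcHom_id hA, Algebra.algebraMap_eq_smul_one,
      Complex.coe_smul]
  have hg' (x : ℝ) (y : spectrum ℝ A) : g x y = x - y := by simp [g]
  let J : Ideal C(spectrum ℝ A, ℝ) :=
    { carrier := {f | IsCompactOperator (φ f)}
      add_mem' := fun {a b} ha hb => by
        show IsCompactOperator (φ (a + b))
        rw [map_add]; exact IsCompactOperator.add ha hb
      zero_mem' := by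
        show IsCompactOperator (φ 0)
        rw [map_zero]; exact isCompactOperator_zero
      smul_mem' := fun c a ha => by
        show IsCompactOperator (φ (c * a))
        rw [map_mul]; exact IsCompactOperator.clm_comp ha (φ c) }
  have hJ : IsClosed (J : Set C(spectrum ℝ A, ℝ)) :=
    isClosed_setOfPred_isCompactOperator.preimage (cfcHom_continuous hA)
  have : g t ∈ J := by
    rw [← ContinuousMap.idealOfSet_ofIdeal_isClosed hJ, ContinuousMap.mem_idealOfSet]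
    intro x hx
    by_contra hx'
    obtain ⟨B, hB⟩ := h x fun e => hx' (by simp [hg', e])
    set δ := (2 * (‖B‖ + 1))⁻¹ with hδ
    have hδ0 : 0 < δ := by positivity
    let f : C(spectrum ℝ A, ℝ) := ⟨fun y => max (δ - |(x : ℝ) - y|) 0, by fun_prop⟩
    refine hx (ContinuousMap.mem_setOfIdeal.2 ⟨f, ?_, by simp [f, hδ0]⟩)
    have h1 (n : ℕ) : IsCompactOperator (φ f - B ^ n * φ (g x ^ n * f) : H →L[ℂ] H) := by
      induction n with
      | zero => simpa using isCompactOperator_zero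
      | succ n ih =>
        have := ih.sub ((hB.comp_clm (φ (g x ^ n * f))).clm_comp (B ^ n))
        refine (congrArg IsCompactOperator ?_).mp this
        rw [pow_succ' (g x), mul_assoc, map_mul φ (g x), hg, pow_succ]
        ext v
        simp
    have h2 : Tendsto (fun n : ℕ => B ^ n * φ (g x ^ n * f)) atTop (𝓝 0) := by
      refine squeeze_zero_norm (a := fun n => (1 / 2 : ℝ) ^ n * δ) (fun n => ?_) (by
        simpa using (tendsto_pow_atTop_nhds_zero_of_lt_one (r := (1 / 2 : ℝ)) (by norm_num)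
          (by norm_num)).mul_const δ)
      have a1 : ‖B ^ n‖ ≤ (‖B‖ + 1) ^ n := by
        rcases n.eq_zero_or_pos with rfl | hn
        · rw [pow_zero, pow_zero]; exact ContinuousLinearMap.norm_id_le
        · exact (norm_pow_le' B hn).trans (by gcongr; linarith)
      have a2 : ‖φ (g x ^ n * f)‖ ≤ δ ^ n * δ := by
        rw [norm_cfcHom A _ hA, ContinuousMap.norm_le _ (by positivity)]
        intro y
        simp only [ContinuousMap.mul_apply, ContinuousMap.pow_apply, hg', norm_mul, norm_pow, f,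
          ContinuousMap.coe_mk, Real.norm_eq_abs]
        rcases le_total (δ - |(x : ℝ) - y|) 0 with e | e
        · rw [max_eq_right e, abs_zero, mul_zero]; positivity
        · rw [max_eq_left e, abs_of_nonneg e]
          have := abs_nonneg ((x : ℝ) - y)
          gcongr <;> linarith
      refine (norm_mul_le _ _).trans ((mul_le_mul a1 a2 (norm_nonneg _) (by positivity)).trans_eq ?_)
      rw [← mul_assoc, ← mul_pow, hδ]
      congr 2
      field_simp
    exact isCompactOperator_of_tendsto (by simpa using h2.const_sub (φ f))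
      (Eventually.of_forall h1)
  have h3 : IsCompactOperator (φ (g t)) := this
  rw [hg] at h3
  refine (congrArg IsCompactOperator ?_).mp h3.neg
  ext v
  simp

lemma avg {K : H →L[ℂ] H} (hK : IsCompactOperator K) {M ε : ℝ} (hM : 0 ≤ M) (hε : 0 < ε) :
    ∃ C : ℝ, ∀ (N : ℕ) (e : Fin N → H), Orthonormal ℂ e → ∀ S : H →L[ℂ] H, ‖S‖ ≤ M →
      ∑ i, ‖⟪S (e i), K (S (e i))⟫_ℂ‖ ≤ N * (ε * (M + 1)) + C := by
  obtain ⟨Q, hQ, hQ'⟩ := IsCompactOperator.image_closedBall_subset_compact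
    (f := (K : H →ₗ[ℂ] H)) hK M
  obtain ⟨W, hW, hW'⟩ := Metric.totallyBounded_iff.1 hQ.totallyBounded ε hε
  lift W to Finset H using hW
  refine ⟨(∑ w ∈ W, (M * ‖w‖) ^ 2) / ε, fun N e he S hS => ?_⟩
  have h1 (i : Fin N) : ‖⟪S (e i), K (S (e i))⟫_ℂ‖ ≤
      ε * (M + 1) + (∑ w ∈ W, ‖⟪e i, S.adjoint w⟫_ℂ‖ ^ 2) / ε := by
    have a1 : ‖S (e i)‖ ≤ M := by simpa [he.1 i] using S.le_of_opNorm_le hS (e i)
    obtain ⟨w, hw, hw'⟩ := Set.mem_iUnion₂.1 (hW' (hQ' ⟨_, mem_closedBall_zero_iff.2 a1, rfl⟩))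
    have a2 : ‖⟪e i, S.adjoint w⟫_ℂ‖ ^ 2 ≤ ∑ w ∈ W, ‖⟪e i, S.adjoint w⟫_ℂ‖ ^ 2 :=
      Finset.single_le_sum (f := fun w => ‖⟪e i, S.adjoint w⟫_ℂ‖ ^ 2) (fun _ _ => by positivity) hw
    have a3 : ⟪S (e i), K (S (e i))⟫_ℂ = ⟪S (e i), K (S (e i)) - w⟫_ℂ + ⟪e i, S.adjoint w⟫_ℂ := by
      rw [ContinuousLinearMap.adjoint_inner_right, inner_sub_right]; simp
    have a4 : ‖K (S (e i)) - w‖ ≤ ε := by rw [← dist_eq_norm]; exact le_of_lt hw'
    have a5 := (norm_inner_le_norm (𝕜 := ℂ) _ _).trans (mul_le_mul a1 a4 (norm_nonneg _) hM)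
    have a6 : ‖⟪e i, S.adjoint w⟫_ℂ‖ ≤ ε + (∑ w ∈ W, ‖⟪e i, S.adjoint w⟫_ℂ‖ ^ 2) / ε := by
      rw [← sub_le_iff_le_add', le_div_iff₀ hε]
      nlinarith [norm_nonneg ⟪e i, S.adjoint w⟫_ℂ, sq_nonneg (‖⟪e i, S.adjoint w⟫_ℂ‖ - ε)]
    rw [a3]
    linarith [norm_add_le ⟪S (e i), K (S (e i)) - w⟫_ℂ ⟪e i, S.adjoint w⟫_ℂ]
  refine (Finset.sum_le_sum fun i _ => h1 i).trans ?_
  rw [Finset.sum_add_distrib, ← Finset.sum_div, Finset.sum_comm]
  simp only [Finset.sum_const, Finset.card_univ, Fintype.card_fin, nsmul_eq_mul]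
  gcongr with w hw
  refine (he.sum_inner_products_le _).trans (pow_le_pow_left₀ (norm_nonneg _) ?_ 2)
  exact S.adjoint.le_of_opNorm_le (by simpa using hS) w

theorem result {H : Type*} [NormedAddCommGroup H] [InnerProductSpace ℂ H] [CompleteSpace H]
    (hH : ¬ FiniteDimensional ℂ H) (L : (ℕ →ᵇ ℂ) →ₗ[ℂ] ℂ) (hL : IsBanachLimit L)
    (T A : H →L[ℂ] H) (hA : A.IsPositive) (h : IsAsLim L T A) (t : ℝ) (ht : 0 < t)
    (he : essSpec A = {(t : ℂ)}) : t = 1 := by
  obtain ⟨M, hM⟩ := h.1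
  have hK := cpt hA.isSelfAdjoint (t := t) fun x hx => by
    have : (x : ℂ) ∉ essSpec A := by simpa [he] using hx
    obtain ⟨B, hB, -⟩ := not_not.1 this
    exact ⟨B, hB⟩
  set K : H →L[ℂ] H := A - (t : ℂ) • 1 with hK'
  by_contra h1
  have hs : 0 < |1 - t| := abs_pos.2 (sub_ne_zero.2 (Ne.symm h1))
  have hM0 : 0 ≤ M := (norm_nonneg _).trans (hM 0)
  obtain ⟨C, hC⟩ := avg hK hM0 (ε := |1 - t| * t / (2 * (1 + |1 - t|) * (M + 1))) (by positivity)
  obtain ⟨N, hN⟩ := exists_nat_gt (C * (1 + |1 - t|) / (|1 - t| * t / 2))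
  obtain ⟨v, hv⟩ := exists_linearIndependent_of_le_rank (R := ℂ) (M := H) (n := N)
    ((Cardinal.natCast_lt_aleph0.le).trans (not_lt.1 fun e => hH (Module.rank_lt_aleph0_iff.1 e)))
  obtain ⟨e, he⟩ : ∃ e : Fin N → H, Orthonormal ℂ e :=
    ⟨_, InnerProductSpace.gramSchmidtNormed_orthonormal hv⟩
  set δ := N * (|1 - t| * t / (2 * (1 + |1 - t|) * (M + 1)) * (M + 1)) + C with hδ
  let s : ℕ →ᵇ ℂ := ∑ i, sq hM K (e i) (e i)
  have hs1 (n : ℕ) : s n = ∑ i, ⟪(T ^ n) (e i), K ((T ^ n) (e i))⟫_ℂ := by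
    simp [s, sq_app]
  have hs2 (n : ℕ) : |(s n).re| ≤ δ := (Complex.abs_re_le_norm _).trans (by
    rw [hs1]; exact (norm_sum_le _ _).trans (hC N e he _ (hM n)))
  have hs3 (n : ℕ) : (s n).im = 0 := by
    rw [hs1, Complex.im_sum]
    refine Finset.sum_eq_zero fun i _ => ?_
    have := hA.isSymmetric.im_inner_self_apply ((T ^ n) (e i))
    simp only [hK', sub_apply, inner_sub_right, smul_apply,
      one_apply_eq_self, inner_smul_right, inner_self_eq_norm_sq_to_K]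
    simpa [← Complex.ofReal_pow] using this
  have hs4 : |(L s).re| ≤ δ := abs_le.2
    ⟨(Complex.le_def.1 (Lge hL (c := ((-δ : ℝ) : ℂ)) fun n =>
      Complex.le_def.2 ⟨(abs_le.1 (hs2 n)).1, (hs3 n).symm⟩)).1,
    (Complex.le_def.1 (Lle hL (c := (δ : ℂ)) fun n =>
      Complex.le_def.2 ⟨(abs_le.1 (hs2 n)).2, hs3 n⟩)).1⟩
  have hs5 : L s = (1 - t) * (s 0 + t * N) := by
    have a1 (i : Fin N) : sq hM K (e i) (e i) =
        ⟪e i, A (e i)⟫_ℂ • (1 : ℕ →ᵇ ℂ) - (t : ℂ) • sq hM 1 (e i) (e i) := by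
      ext n
      simpa [sq_app, hK'] using inv hL h n (e i) (e i)
    have a2 (i : Fin N) : ⟪e i, A (e i)⟫_ℂ = ⟪e i, K (e i)⟫_ℂ + t := by
      simp [hK', he.1 i]
    rw [hs1]
    simp only [s, map_sum, a1, map_sub, Lconst hL, map_smul, ← h.2 _ _ (sq hM 1 _ _) fun _ => rfl,
      a2, pow_zero, one_apply_eq_self, smul_eq_mul, Finset.sum_sub_distrib, ← Finset.mul_sum,
      Finset.sum_add_distrib, Finset.sum_const, Finset.card_univ, Fintype.card_fin, nsmul_eq_mul]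
    ring
  have hs6 : (L s).re = (1 - t) * ((s 0).re + t * N) := by simp [hs5, hs3]
  rw [hs6, abs_mul] at hs4
  have a1 : t * N - δ ≤ |(s 0).re + t * N| := by
    linarith [le_abs_self ((s 0).re + t * N), (abs_le.1 (hs2 0)).1]
  have a2 : δ * (1 + |1 - t|) = N * (|1 - t| * t / 2) + C * (1 + |1 - t|) := by
    rw [hδ]; field_simp
  rw [div_lt_iff₀ (by positivity)] at hN
  nlinarith [mul_le_mul_of_nonneg_left a1 hs.le]

end Pool.Agent.Results.MP_fdf6c3_an.EssOne
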